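import Pool.Agent.H77.BD.Targets

/-!
# The operators on the basis; rows XDG, XNB, XSL of the board bct_modules
-/

set_option autoImplicit false

open Set Matrix Pool.Agent.H77.BC Pool.Agent.H77.BD

namespace Pool.Agent.H27.BCT

variable {l : ℕ} {C : Matrix (Fin l) (Fin l) ℤ} {F : Type} [Field F]

/-! ### tables -/

theorem co_eb (γ : Root C) (w : Fin l → ℤ) :
    co (eb F γ : Sp C F).1 w = if w = γ.1 then 1 else 0 := by
  unfold co eb
  by_cases h' : w = γ.1
  · rw [if_pos h', dif_pos (by rw [h']; exact γ.2)]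
    exact if_pos (Subtype.ext h')
  · rw [if_neg h']
    by_cases h : ip C w w = 2
    · rw [dif_pos h]
      exact if_neg fun h2 => h' (congrArg Subtype.val h2)
    · rw [dif_neg h]

theorem co_hb (h : Fin l → F) (w : Fin l → ℤ) : co (hb h : Sp C F).1 w = 0 := by
  unfold co hb
  split_ifs <;> rfl

theorem eb_snd (γ : Root C) : (eb F γ : Sp C F).2 = 0 := rfl

theorem hb_snd (h : Fin l → F) : (hb h : Sp C F).2 = h := rfl

theorem hb_fst (h : Fin l → F) : (hb h : Sp C F).1 = 0 := rfl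

theorem nf_eb_zero (hC : Cartan C) (β γ : Root C) (h : 0 ≤ ip C β.1 γ.1) :
    nf β (eb F γ) = 0 := by
  refine Prod.ext ?_ ?_
  · funext δ
    simp only [nf, co_eb, eb_snd, pr_zero, neg_zero, ite_self, add_zero, Prod.fst_zero,
      Pi.zero_apply]
    by_cases h1 : δ.1 - β.1 = γ.1
    · have h2 := ip_of_sum hC β γ δ (by rw [← h1]; abel)
      omega
    · rw [if_neg h1, mul_zero]
  · funext i
    simp only [nf, co_eb, Prod.snd_zero, Pi.zero_apply]
    by_cases h1 : -β.1 = γ.1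
    · rw [← h1, ip_neg_right, ip_self] at h
      omega
    · rw [if_neg h1, zero_mul, neg_zero]

theorem nf_eb_add (hC : Cartan C) (β γ δ : Root C) (h : δ.1 = β.1 + γ.1) :
    nf β (eb F γ) = (eps C β.1 γ.1 : F) • eb F δ := by
  refine Prod.ext ?_ ?_
  · funext ρ
    simp only [nf, co_eb, eb_snd, pr_zero, neg_zero, ite_self, add_zero, Prod.smul_fst,
      Pi.smul_apply, smul_eq_mul]
    show (eps C β.1 (ρ.1 - β.1) : F) * (if ρ.1 - β.1 = γ.1 then 1 else 0) =
      (eps C β.1 γ.1 : F) * (if ρ = δ then 1 else 0)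
    by_cases h1 : ρ.1 - β.1 = γ.1
    · have h2 : ρ = δ := Subtype.ext (by rw [h, ← h1]; abel)
      rw [if_pos h1, if_pos h2, h1]
    · have h2 : ρ ≠ δ := by
        intro h2
        apply h1
        rw [h2, h]
        abel
      rw [if_neg h1, if_neg h2, mul_zero, mul_zero]
  · funext i
    simp only [nf, co_eb, Prod.smul_snd, eb_snd, smul_zero, Pi.zero_apply]
    have h1 : ¬ (-β.1 = γ.1) := by
      intro h1
      have h2 := ip_of_sum hC β γ δ h
      rw [← h1, ip_neg_right, ip_self] at h2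
      omega
    rw [if_neg h1, zero_mul, neg_zero]

theorem nf_eb_ng (β : Root C) : nf β (eb F (ng β)) = - hb (hh C F β.1) := by
  refine Prod.ext ?_ ?_
  · funext ρ
    simp only [nf, co_eb, eb_snd, pr_zero, neg_zero, ite_self, add_zero, Prod.fst_neg, hb_fst,
      Pi.zero_apply, ng_val]
    have h1 : ¬ (ρ.1 - β.1 = -β.1) := by
      intro h1
      exact root_ne_zero ρ (by
        have h2 : ρ.1 = (ρ.1 - β.1) + β.1 := by abel
        rw [h2, h1]
        abel)
    rw [if_neg h1, mul_zero]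
  · funext i
    simp only [nf, co_eb, ng_val, Prod.snd_neg, hb_snd, Pi.neg_apply]
    rw [if_pos trivial, one_mul]

theorem nf_hb (β : Root C) (h : Fin l → F) : nf β (hb h) = -(pr β.1 h • eb F β) := by
  refine Prod.ext ?_ ?_
  · funext ρ
    simp only [nf, co_hb, hb_snd, mul_zero, zero_add, Prod.fst_neg, Prod.smul_fst, Pi.neg_apply,
      Pi.smul_apply, smul_eq_mul]
    show (if ρ = β then - pr β.1 h else 0) = -(pr β.1 h * (if ρ = β then 1 else 0))
    split_ifs <;> ring
  · funext i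
    simp only [nf, co_hb, zero_mul, neg_zero, Prod.snd_neg, Prod.smul_snd, eb_snd, smul_zero,
      Pi.zero_apply]

theorem qf_eq (β : Root C) (v : Sp C F) : qf β v = co v.1 (-β.1) • eb F β := by
  refine Prod.ext ?_ ?_
  · funext ρ
    show (if ρ = β then co v.1 (-β.1) else 0) = co v.1 (-β.1) * (if ρ = β then 1 else 0)
    split_ifs <;> ring
  · funext i
    simp only [qf, Prod.smul_snd, eb_snd, smul_zero]

theorem qf_eb_ng (β : Root C) : qf β (eb F (ng β)) = eb F β := by
  rw [qf_eq, co_eb, ng_val, if_pos rfl, one_smul]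

theorem qf_eb (β γ : Root C) (h : γ ≠ ng β) : qf β (eb F γ) = 0 := by
  rw [qf_eq, co_eb, if_neg (fun h1 => h (Subtype.ext h1.symm)), zero_smul]

theorem qf_hb (β : Root C) (h : Fin l → F) : qf β (hb h) = 0 := by
  rw [qf_eq, co_hb, zero_smul]

theorem ah_eb (h : Fin l → F) (γ : Root C) : ah h (eb F γ) = pr γ.1 h • eb F γ := by
  refine Prod.ext ?_ ?_
  · funext ρ
    show pr ρ.1 h * (if ρ = γ then 1 else 0) = pr γ.1 h * (if ρ = γ then 1 else 0)
    by_cases h1 : ρ = γ
    · rw [h1]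
    · rw [if_neg h1, mul_zero, mul_zero]
  · funext i
    simp only [ah, Prod.smul_snd, eb_snd, smul_zero]

theorem ah_hb (h g : Fin l → F) : ah h (hb g : Sp C F) = 0 := by
  refine Prod.ext ?_ rfl
  funext ρ
  show pr ρ.1 h * 0 = 0
  rw [mul_zero]

theorem nf_neg (β : Root C) (v : Sp C F) : nf β (-v) = - nf β v := by
  have h := nf_smul β (-1 : F) v
  rwa [neg_one_smul, neg_one_smul] at h

theorem qf_neg (β : Root C) (v : Sp C F) : qf β (-v) = - qf β v := by
  have h := qf_smul β (-1 : F) v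
  rwa [neg_one_smul, neg_one_smul] at h

theorem ah_neg (h : Fin l → F) (v : Sp C F) : ah h (-v) = - ah h v := by
  have h1 := ah_smul h (-1 : F) v
  rwa [neg_one_smul, neg_one_smul] at h1

theorem nf_zero (β : Root C) : nf β (0 : Sp C F) = 0 := by
  have h := nf_smul β (0 : F) (0 : Sp C F)
  rwa [zero_smul, zero_smul] at h

theorem qf_zero (β : Root C) : qf β (0 : Sp C F) = 0 := by
  have h := qf_smul β (0 : F) (0 : Sp C F)
  rwa [zero_smul, zero_smul] at h

theorem ah_zero (h : Fin l → F) : ah h (0 : Sp C F) = 0 := by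
  have h1 := ah_smul h (0 : F) (0 : Sp C F)
  rwa [zero_smul, zero_smul] at h1

/-! ### opposite roots -/

theorem ng_ng (β : Root C) : ng (ng β) = β := Subtype.ext (neg_neg β.1)

theorem nf_ng_self (β : Root C) : nf (ng β) (eb F β) = hb (hh C F β.1) := by
  have h := nf_eb_ng (F := F) (ng β)
  rw [ng_ng, ng_val, hh_neg] at h
  rw [h]
  refine Prod.ext ?_ ?_
  · simp only [Prod.fst_neg, hb_fst, neg_zero]
  · simp only [Prod.snd_neg, hb_snd, neg_neg]

theorem qf_ng_self (β : Root C) : qf (ng β) (eb F β) = eb F (ng β) := by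
  have h := qf_eb_ng (F := F) (ng β)
  rwa [ng_ng] at h

theorem nf_ng_hb (β : Root C) (h : Fin l → F) : nf (ng β) (hb h) = pr β.1 h • eb F (ng β) := by
  rw [nf_hb, ng_val, pr_neg_left, neg_smul, neg_neg]

theorem nf_ng_zero (hC : Cartan C) (β γ : Root C) (h : ip C β.1 γ.1 ≤ 0) :
    nf (ng β) (eb F γ) = 0 :=
  nf_eb_zero hC (ng β) γ (by rw [ng_val, ip_neg_left]; omega)

theorem nf_ng_sub (hC : Cartan C) (β γ δ : Root C) (h : γ.1 = β.1 + δ.1) :
    nf (ng β) (eb F γ) = (eps C β.1 γ.1 : F) • eb F δ := by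
  have h1 := nf_eb_add (F := F) hC (ng β) γ δ (by rw [ng_val, h]; abel)
  rwa [ng_val, eps_neg_left] at h1

/-- the position of a root relative to `β` -/
theorem root_cases (hC : Cartan C) (β γ : Root C) :
    ip C β.1 γ.1 = 0 ∨ (∃ δ : Root C, δ.1 = β.1 + γ.1) ∨ (∃ δ : Root C, γ.1 = β.1 + δ.1) ∨
      γ = β ∨ γ = ng β := by
  have h1 := neg_two_le_ip hC β γ
  have h2 := ip_le_two hC β γ
  have h3 : ip C β.1 γ.1 = 0 ∨ ip C β.1 γ.1 = -1 ∨ ip C β.1 γ.1 = 1 ∨ ip C β.1 γ.1 = 2 ∨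
    ip C β.1 γ.1 = -2 := by omega
  rcases h3 with h | h | h | h | h
  · exact Or.inl h
  · exact Or.inr (Or.inl ⟨ad hC β γ h, rfl⟩)
  · refine Or.inr (Or.inr (Or.inl ⟨sb hC γ β (by rw [ip_comm hC]; exact h), ?_⟩))
    rw [sb_val]
    abel
  · exact Or.inr (Or.inr (Or.inr (Or.inl (ip_eq_two hC β γ h).symm)))
  · exact Or.inr (Or.inr (Or.inr (Or.inr (Subtype.ext (ip_eq_neg_two hC β γ h)))))

/-- the sign for a sum with `β` -/
theorem eps_sum (hC : Cartan C) (β γ δ : Root C) (h : δ.1 = β.1 + γ.1) :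
    (eps C β.1 δ.1 : F) = -(eps C β.1 γ.1 : F) := by
  rw [h, eps_add_right, eps_self hC]
  push_cast
  ring

theorem ip_sum (hC : Cartan C) (β γ δ : Root C) (h : δ.1 = β.1 + γ.1) :
    ip C β.1 δ.1 = 1 := by
  rw [h, ip_add_right, ip_self, ip_of_sum hC β γ δ h]
  norm_num

theorem sum_ne_ng (hC : Cartan C) (β γ δ : Root C) (h : δ.1 = β.1 + γ.1) : γ ≠ ng β := by
  intro h1
  have h2 := ip_of_sum hC β γ δ h
  rw [h1, ng_val, ip_neg_right, ip_self] at h2
  omega

theorem pos_ne_ng (β γ : Root C) (h : -2 < ip C β.1 γ.1) : γ ≠ ng β := by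
  intro h1
  rw [h1, ng_val, ip_neg_right, ip_self] at h
  omega

/-! ### XDG -/

theorem co_Dg (c : Fin l → Fˣ) (v : Sp C F) (w : Fin l → ℤ) :
    co (Dg c v).1 w = (chi C c w : F) * co v.1 w := by
  unfold co
  by_cases h : ip C w w = 2
  · rw [dif_pos h, dif_pos h]
    rfl
  · rw [dif_neg h, dif_neg h, mul_zero]

set_option linter.unusedVariables false in
theorem pf_XDG (hXEB : T_XEB) (hSPB : T_SPB) : T_XDG := by
  intro l C hC F _ c β t v
  have h2 : (chi C c β.1 : F) * (chi C c (-β.1) : F) = 1 := by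
    rw [← Units.val_mul, chi_neg, mul_inv_cancel, Units.val_one]
  refine Prod.ext ?_ ?_
  · funext γ
    show (chi C c γ.1 : F) * (v.1 γ + t * ((eps C β.1 (γ.1 - β.1) : F) * co v.1 (γ.1 - β.1)) +
      (if γ = β then t ^ 2 * co v.1 (-β.1) - t * pr β.1 v.2 else 0)) =
      (chi C c γ.1 : F) * v.1 γ + ((chi C c β.1 : F) * t) *
        ((eps C β.1 (γ.1 - β.1) : F) * co (Dg c v).1 (γ.1 - β.1)) +
      (if γ = β then ((chi C c β.1 : F) * t) ^ 2 * co (Dg c v).1 (-β.1) -
        ((chi C c β.1 : F) * t) * pr β.1 v.2 else 0)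
    rw [co_Dg, co_Dg]
    have h1 : (chi C c γ.1 : F) = (chi C c β.1 : F) * (chi C c (γ.1 - β.1) : F) := by
      rw [← Units.val_mul, ← chi_add]
      have e : β.1 + (γ.1 - β.1) = γ.1 := by abel
      rw [e]
    by_cases h : γ = β
    · rw [if_pos h, if_pos h, h]
      have h3 : (chi C c β.1 : F) = (chi C c β.1 : F) * (chi C c (β.1 - β.1) : F) := by
        rw [h] at h1
        exact h1
      have h4 : ((chi C c β.1 : F) * t) ^ 2 * ((chi C c (-β.1) : F) * co v.1 (-β.1)) =
          (chi C c β.1 : F) * (t ^ 2 * co v.1 (-β.1)) := by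
        calc ((chi C c β.1 : F) * t) ^ 2 * ((chi C c (-β.1) : F) * co v.1 (-β.1))
            = (chi C c β.1 : F) * ((chi C c β.1 : F) * (chi C c (-β.1) : F)) *
              (t ^ 2 * co v.1 (-β.1)) := by ring
          _ = _ := by rw [h2, mul_one]
      have h5 : (chi C c β.1 : F) * (t * ((eps C β.1 (β.1 - β.1) : F) * co v.1 (β.1 - β.1))) =
          (chi C c β.1 : F) * t * ((eps C β.1 (β.1 - β.1) : F) *
            ((chi C c (β.1 - β.1) : F) * co v.1 (β.1 - β.1))) := by
        conv_lhs => rw [h3]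
        ring
      rw [h4, mul_add, mul_add, h5]
      ring
    · rw [if_neg h, if_neg h, add_zero, add_zero, mul_add]
      conv_lhs =>
        rw [h1]
      rw [← h1]
      have h5 : (chi C c γ.1 : F) * (t * ((eps C β.1 (γ.1 - β.1) : F) * co v.1 (γ.1 - β.1))) =
          (chi C c β.1 : F) * t * ((eps C β.1 (γ.1 - β.1) : F) *
            ((chi C c (γ.1 - β.1) : F) * co v.1 (γ.1 - β.1))) := by
        rw [h1]
        ring
      rw [h5]
  · funext i
    show v.2 i - t * co v.1 (-β.1) * hh C F β.1 i =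
      v.2 i - ((chi C c β.1 : F) * t) * co (Dg c v).1 (-β.1) * hh C F β.1 i
    rw [co_Dg]
    have h3 : ((chi C c β.1 : F) * t) * ((chi C c (-β.1) : F) * co v.1 (-β.1)) =
        t * co v.1 (-β.1) := by
      calc ((chi C c β.1 : F) * t) * ((chi C c (-β.1) : F) * co v.1 (-β.1))
          = ((chi C c β.1 : F) * (chi C c (-β.1) : F)) * (t * co v.1 (-β.1)) := by ring
        _ = _ := by rw [h2, one_mul]
    rw [h3]

/-! ### XNB -/

theorem L1 (hSPB : T_SPB) (hC : Cartan C) (β : Root C) (v : Sp C F) :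
    nf β (nf (ng β) v) = nf (ng β) (nf β v) - ah (hh C F β.1) v := by
  refine hSPB hC (fun v => nf β (nf (ng β) v))
    (fun v => nf (ng β) (nf β v) - ah (hh C F β.1) v) ?_ ?_ ?_ ?_ ?_ ?_ v
  · intro u v
    simp only [nf_add]
  · intro a v
    simp only [nf_smul]
  · intro u v
    simp only [nf_add, ah_add]
    abel
  · intro a v
    simp only [nf_smul, ah_smul, smul_sub]
  · intro γ
    show nf β (nf (ng β) (eb F γ)) = nf (ng β) (nf β (eb F γ)) - ah (hh C F β.1) (eb F γ)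
    rw [ah_eb, pr_hh, ip_comm hC γ.1 β.1]
    rcases root_cases hC β γ with h | ⟨δ, h⟩ | ⟨δ, h⟩ | h | h
    · rw [nf_ng_zero hC β γ h.le, nf_eb_zero hC β γ h.ge, nf_zero, nf_zero, h, Int.cast_zero,
        zero_smul, sub_zero]
    · have h1 := ip_of_sum hC β γ δ h
      rw [nf_ng_zero hC β γ (by omega), nf_zero, nf_eb_add hC β γ δ h, nf_smul,
        nf_ng_sub hC β δ γ h, smul_smul, eps_sum hC β γ δ h, mul_neg, eps_mul_self_F, h1]
      push_cast
      simp
    · have h1 := ip_sum hC β δ γ h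
      rw [nf_ng_sub hC β γ δ h, nf_smul, nf_eb_add hC β δ γ h, smul_smul, eps_sum hC β δ γ h,
        neg_mul, eps_mul_self_F, nf_eb_zero hC β γ (by omega), nf_zero, h1]
      push_cast
      simp
    · rw [h, nf_ng_self, nf_hb, nf_eb_zero hC β β (by rw [ip_self]; norm_num), nf_zero, pr_hh,
        zero_sub]
    · rw [h, nf_ng_zero hC β (ng β) (by rw [ng_val, ip_neg_right, ip_self]; norm_num), nf_zero,
        nf_eb_ng, nf_neg, nf_ng_hb, pr_hh, ng_val, ip_neg_right, ip_self]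
      push_cast
      simp
  · intro h
    show nf β (nf (ng β) (hb h)) = nf (ng β) (nf β (hb h)) - ah (hh C F β.1) (hb h)
    rw [nf_ng_hb, nf_smul, nf_eb_ng, nf_hb, nf_neg, nf_smul, nf_ng_self, ah_hb, sub_zero, smul_neg]

theorem L2 (hSPB : T_SPB) (hC : Cartan C) (β : Root C) (v : Sp C F) :
    qf β (nf (ng β) v) + ah (hh C F β.1) (nf β v) = nf (ng β) (qf β v) + nf β v := by
  refine hSPB hC (fun v => qf β (nf (ng β) v) + ah (hh C F β.1) (nf β v))
    (fun v => nf (ng β) (qf β v) + nf β v) ?_ ?_ ?_ ?_ ?_ ?_ v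
  · intro u v
    simp only [nf_add, qf_add, ah_add]
    abel
  · intro a v
    simp only [nf_smul, qf_smul, ah_smul, smul_add]
  · intro u v
    simp only [nf_add, qf_add]
    abel
  · intro a v
    simp only [nf_smul, qf_smul, smul_add]
  · intro γ
    show qf β (nf (ng β) (eb F γ)) + ah (hh C F β.1) (nf β (eb F γ)) =
      nf (ng β) (qf β (eb F γ)) + nf β (eb F γ)
    rcases root_cases hC β γ with h | ⟨δ, h⟩ | ⟨δ, h⟩ | h | h
    · rw [nf_ng_zero hC β γ h.le, nf_eb_zero hC β γ h.ge, qf_zero, ah_zero,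
        qf_eb β γ (pos_ne_ng β γ (by omega)), nf_zero]
    · have h1 := ip_of_sum hC β γ δ h
      rw [nf_ng_zero hC β γ (by omega), qf_zero, nf_eb_add hC β γ δ h, ah_smul, ah_eb, pr_hh,
        ip_comm hC δ.1 β.1, ip_sum hC β γ δ h, qf_eb β γ (sum_ne_ng hC β γ δ h), nf_zero]
      push_cast
      simp
    · have h1 := ip_sum hC β δ γ h
      rw [nf_ng_sub hC β γ δ h, qf_smul, qf_eb β δ (sum_ne_ng hC β δ γ h), smul_zero,
        nf_eb_zero hC β γ (by omega), ah_zero, qf_eb β γ (pos_ne_ng β γ (by omega)), nf_zero]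
    · rw [h, nf_ng_self, qf_hb, nf_eb_zero hC β β (by rw [ip_self]; norm_num), ah_zero,
        qf_eb β β (pos_ne_ng β β (by rw [ip_self]; norm_num)), nf_zero]
    · rw [h, nf_ng_zero hC β (ng β) (by rw [ng_val, ip_neg_right, ip_self]; norm_num), qf_zero,
        nf_eb_ng, ah_neg, ah_hb, qf_eb_ng, nf_ng_self]
      simp
  · intro h
    show qf β (nf (ng β) (hb h)) + ah (hh C F β.1) (nf β (hb h)) =
      nf (ng β) (qf β (hb h)) + nf β (hb h)
    rw [nf_ng_hb, qf_smul, qf_eb_ng, nf_hb, ah_neg, ah_smul, ah_eb, pr_hh, ip_self, qf_hb, nf_zero,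
      zero_add]
    push_cast
    module

theorem L4 (hC : Cartan C) (β : Root C) (v : Sp C F) : nf β (qf β v) = 0 := by
  rw [qf_eq, nf_smul, nf_eb_zero hC β β (by rw [ip_self]; norm_num), smul_zero]

theorem L3 (hSPB : T_SPB) (hC : Cartan C) (β : Root C) (v : Sp C F) :
    nf β (nf β v) = ah (hh C F β.1) (qf β v) := by
  refine hSPB hC (fun v => nf β (nf β v)) (fun v => ah (hh C F β.1) (qf β v)) ?_ ?_ ?_ ?_ ?_ ?_ v
  · intro u v
    simp only [nf_add]
  · intro a v
    simp only [nf_smul]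
  · intro u v
    simp only [qf_add, ah_add]
  · intro a v
    simp only [qf_smul, ah_smul]
  · intro γ
    show nf β (nf β (eb F γ)) = ah (hh C F β.1) (qf β (eb F γ))
    rcases root_cases hC β γ with h | ⟨δ, h⟩ | ⟨δ, h⟩ | h | h
    · rw [nf_eb_zero hC β γ h.ge, nf_zero, qf_eb β γ (pos_ne_ng β γ (by omega)), ah_zero]
    · rw [nf_eb_add hC β γ δ h, nf_smul, nf_eb_zero hC β δ (by rw [ip_sum hC β γ δ h]; norm_num),
        smul_zero, qf_eb β γ (sum_ne_ng hC β γ δ h), ah_zero]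
    · have h1 := ip_sum hC β δ γ h
      rw [nf_eb_zero hC β γ (by omega), nf_zero, qf_eb β γ (pos_ne_ng β γ (by omega)), ah_zero]
    · rw [h, nf_eb_zero hC β β (by rw [ip_self]; norm_num), nf_zero,
        qf_eb β β (pos_ne_ng β β (by rw [ip_self]; norm_num)), ah_zero]
    · rw [h, nf_eb_ng, nf_neg, nf_hb, qf_eb_ng, ah_eb, neg_neg]
  · intro h
    show nf β (nf β (hb h)) = ah (hh C F β.1) (qf β (hb h))
    rw [nf_hb, nf_neg, nf_smul, nf_eb_zero hC β β (by rw [ip_self]; norm_num), smul_zero, neg_zero,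
      qf_hb, ah_zero]

theorem M1 (hSPB : T_SPB) (hC : Cartan C) (β : Root C) (g : Fin l → F) (v : Sp C F) :
    nf β (ah g v) = ah g (nf β v) - pr β.1 g • nf β v := by
  refine hSPB hC (fun v => nf β (ah g v)) (fun v => ah g (nf β v) - pr β.1 g • nf β v)
    ?_ ?_ ?_ ?_ ?_ ?_ v
  · intro u v
    simp only [nf_add, ah_add]
  · intro a v
    simp only [nf_smul, ah_smul]
  · intro u v
    simp only [nf_add, ah_add, smul_add]
    abel
  · intro a v
    simp only [nf_smul, ah_smul, smul_sub]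
    rw [smul_comm]
  · intro γ
    show nf β (ah g (eb F γ)) = ah g (nf β (eb F γ)) - pr β.1 g • nf β (eb F γ)
    rw [ah_eb, nf_smul]
    by_cases h0 : 0 ≤ ip C β.1 γ.1
    · rw [nf_eb_zero hC β γ h0, ah_zero, smul_zero, smul_zero, sub_zero]
    · rcases root_cases hC β γ with h | ⟨δ, h⟩ | ⟨δ, h⟩ | h | h
      · exact absurd h.ge h0
      · rw [nf_eb_add hC β γ δ h, ah_smul, ah_eb, h, pr_add_left]
        module
      · have h1 := ip_sum hC β δ γ h
        omega
      · rw [h, ip_self] at h0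
        omega
      · rw [h, nf_eb_ng, ah_neg, ah_hb, ng_val, pr_neg_left]
        module
  · intro h
    show nf β (ah g (hb h)) = ah g (nf β (hb h)) - pr β.1 g • nf β (hb h)
    rw [ah_hb, nf_zero, nf_hb, ah_neg, ah_smul, ah_eb]
    module

theorem co_ah (g : Fin l → F) (v : Sp C F) (w : Fin l → ℤ) :
    co (ah g v).1 w = pr w g * co v.1 w := by
  unfold co
  by_cases h : ip C w w = 2
  · rw [dif_pos h, dif_pos h]
    rfl
  · rw [dif_neg h, dif_neg h, mul_zero]

theorem M2 (hSPB : T_SPB) (hC : Cartan C) (β : Root C) (g : Fin l → F) (v : Sp C F) :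
    qf β (ah g v) = ah g (qf β v) - pr β.1 g • nf β (nf β v) := by
  rw [L3 hSPB hC, qf_eq, qf_eq, co_ah, ah_smul, ah_smul, ah_eb, ah_eb, pr_hh, ip_self, pr_neg_left]
  push_cast
  module

theorem pf_XNB (hSPB : T_SPB) : T_XNB := by
  intro l C hC F _ β t w
  constructor
  · rw [Xf_eq, Xf_eq, L1 hSPB hC]
    have h2 := L2 hSPB hC β w
    have h3 : qf β (nf (ng β) w) = nf (ng β) (qf β w) + nf β w - ah (hh C F β.1) (nf β w) := by
      rw [← h2]
      abel
    rw [h3]
    simp only [nf_add, nf_smul, ah_add, ah_smul]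
    rw [L3 hSPB hC, L4 hC]
    module
  · intro h
    rw [Xf_eq, Xf_eq, M1 hSPB hC, M2 hSPB hC]
    simp only [nf_add, nf_smul, ah_add, ah_smul]
    rw [L4 hC]
    module

end Pool.Agent.H27.BCT
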