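import Pool.Agent.H77.BD.Targets

/-!
# Row XNA of the board bct_modules: conjugates of `nf γ`
-/

set_option autoImplicit false

open Set Matrix Pool.Agent.H77.BC Pool.Agent.H77.BD

namespace Pool.Agent.H27.BCT

variable {l : ℕ} {C : Matrix (Fin l) (Fin l) ℤ} {F : Type} [Field F]

/-- the linear coefficient of a polynomial which vanishes identically -/
theorem coef_one [Infinite F] (a b c d : F)
    (h : ∀ s : F, s * a + s ^ 2 * b + s ^ 3 * c + s ^ 4 * d = 0) : a = 0 := by
  have hp : (Polynomial.C a * Polynomial.X + Polynomial.C b * Polynomial.X ^ 2 +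
      Polynomial.C c * Polynomial.X ^ 3 + Polynomial.C d * Polynomial.X ^ 4 : Polynomial F) = 0 := by
    refine Polynomial.funext fun s => ?_
    have := h s
    simp only [Polynomial.eval_add, Polynomial.eval_mul, Polynomial.eval_C, Polynomial.eval_X,
      Polynomial.eval_pow, Polynomial.eval_zero]
    linear_combination this
  have h1 := congrArg (fun p : Polynomial F => p.coeff 1) hp
  simpa [Polynomial.coeff_X, Polynomial.coeff_X_pow] using h1

/-- the vector version -/
theorem coef_vec [Infinite F] (a b c d : Sp C F)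
    (h : ∀ s : F, s • a + s ^ 2 • b + s ^ 3 • c + s ^ 4 • d = 0) : a = 0 := by
  refine Prod.ext ?_ ?_
  · funext γ
    refine coef_one (a.1 γ) (b.1 γ) (c.1 γ) (d.1 γ) fun s => ?_
    have h1 := congrFun (congrArg Prod.fst (h s)) γ
    simpa using h1
  · funext i
    refine coef_one (a.2 i) (b.2 i) (c.2 i) (d.2 i) fun s => ?_
    have h1 := congrFun (congrArg Prod.snd (h s)) i
    simpa using h1

theorem pf_XNA (hXCM : T_XCM) (hXCO : T_XCO) : T_XNA := by
  intro l C hC F _ _ β γ t w
  constructor
  · intro h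
    have h1 := coef_vec (Xf β t (nf γ w) - nf γ (Xf β t w)) (Xf β t (qf γ w) - qf γ (Xf β t w)) 0 0
      (fun s => by
        have h2 := hXCM hC β γ h t s w
        rw [Xf_eq γ s w, Xf_eq γ s (Xf β t w), Xf_add, Xf_add, Xf_smul, Xf_smul] at h2
        have h3 : s • Xf β t (nf γ w) + s ^ 2 • Xf β t (qf γ w) =
            s • nf γ (Xf β t w) + s ^ 2 • qf γ (Xf β t w) := by
          rw [add_assoc, add_assoc] at h2
          exact add_left_cancel h2
        rw [smul_sub, smul_sub, smul_zero, smul_zero, add_zero, add_zero]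
        calc s • Xf β t (nf γ w) - s • nf γ (Xf β t w) +
            (s ^ 2 • Xf β t (qf γ w) - s ^ 2 • qf γ (Xf β t w))
            = (s • Xf β t (nf γ w) + s ^ 2 • Xf β t (qf γ w)) -
              (s • nf γ (Xf β t w) + s ^ 2 • qf γ (Xf β t w)) := by abel
          _ = 0 := by rw [h3, sub_self])
    exact sub_eq_zero.1 h1
  · intro δ h
    set e := (eps C β.1 γ.1 : F) with he
    set W := Xf β t w with hW
    have h1 := coef_vec (Xf β t (nf γ w) - nf γ W - (e * t) • nf δ W)
      (Xf β t (qf γ w) - qf γ W - (e * t) • nf δ (nf γ W) - (e * t) ^ 2 • qf δ W)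
      (-((e * t) • nf δ (qf γ W) + (e * t) ^ 2 • qf δ (nf γ W))) (-((e * t) ^ 2 • qf δ (qf γ W)))
      (fun s => by
        have h2 := hXCO hC β γ δ h t s w
        rw [Xf_eq γ s w, Xf_add, Xf_add, Xf_smul, Xf_smul, ← hW, Xf_eq γ s W, Xf_eq δ, ← he] at h2
        simp only [nf_add, nf_smul, qf_add, qf_smul, smul_add] at h2
        rw [← sub_eq_zero] at h2
        rw [← h2]
        module)
    have h2 := sub_eq_zero.1 h1
    rw [← h2]
    abel

end Pool.Agent.H27.BCT
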