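import Pool.Agent.H27.BCT.Ops

/-!
# Row XSL of the board bct_modules: the formula in `SL_2`
-/

set_option autoImplicit false

open Set Matrix Pool.Agent.H77.BC Pool.Agent.H77.BD

namespace Pool.Agent.H27.BCT

variable {l : ℕ} {C : Matrix (Fin l) (Fin l) ℤ} {F : Type} [Field F]

theorem X0 (hC : Cartan C) (β γ : Root C) (t : F) (h : 0 ≤ ip C β.1 γ.1) :
    Xf β t (eb F γ) = eb F γ := by
  rw [Xf_eq, nf_eb_zero hC β γ h, qf_eb β γ (pos_ne_ng β γ (by omega))]
  simp

theorem X1 (hC : Cartan C) (β γ δ : Root C) (t : F) (h : δ.1 = β.1 + γ.1) :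
    Xf β t (eb F γ) = eb F γ + (t * (eps C β.1 γ.1 : F)) • eb F δ := by
  rw [Xf_eq, nf_eb_add hC β γ δ h, qf_eb β γ (sum_ne_ng hC β γ δ h), smul_zero, add_zero, smul_smul]

theorem X2 (β : Root C) (t : F) :
    Xf β t (eb F (ng β)) = eb F (ng β) - t • hb (hh C F β.1) + t ^ 2 • eb F β := by
  rw [Xf_eq, nf_eb_ng, qf_eb_ng, smul_neg, sub_eq_add_neg]

theorem X3 (β : Root C) (t : F) (h : Fin l → F) :
    Xf β t (hb h) = hb h - (t * pr β.1 h) • eb F β := by
  rw [Xf_eq, nf_hb, qf_hb, smul_zero, add_zero, smul_neg, smul_smul, sub_eq_add_neg]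

theorem Y0 (hC : Cartan C) (β γ : Root C) (t : F) (h : ip C β.1 γ.1 ≤ 0) :
    Xf (ng β) t (eb F γ) = eb F γ :=
  X0 hC (ng β) γ t (by rw [ng_val, ip_neg_left]; omega)

theorem Y1 (hC : Cartan C) (β γ δ : Root C) (t : F) (h : γ.1 = β.1 + δ.1) :
    Xf (ng β) t (eb F γ) = eb F γ - (t * (eps C β.1 δ.1 : F)) • eb F δ := by
  rw [X1 hC (ng β) γ δ t (by rw [ng_val, h]; abel), ng_val, eps_neg_left, eps_sum hC β δ γ h]
  module

theorem Y2 (β : Root C) (t : F) :
    Xf (ng β) t (eb F β) = eb F β + t • hb (hh C F β.1) + t ^ 2 • eb F (ng β) := by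
  rw [Xf_eq, nf_ng_self, qf_ng_self]

theorem Y3 (β : Root C) (t : F) (h : Fin l → F) :
    Xf (ng β) t (hb h) = hb h + (t * pr β.1 h) • eb F (ng β) := by
  rw [X3, ng_val, pr_neg_left]
  module

theorem Xf_neg (β : Root C) (t : F) (v : Sp C F) : Xf β t (-v) = - Xf β t v := by
  have h := Xf_smul β t (-1 : F) v
  rwa [neg_one_smul, neg_one_smul] at h

theorem Xf_sub (β : Root C) (t : F) (u v : Sp C F) : Xf β t (u - v) = Xf β t u - Xf β t v := by
  rw [sub_eq_add_neg, Xf_add, Xf_neg, sub_eq_add_neg]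

theorem Dg_eb (c : Fin l → Fˣ) (γ : Root C) : Dg c (eb F γ) = (chi C c γ.1 : F) • eb F γ := by
  refine Prod.ext ?_ ?_
  · funext δ
    show (chi C c δ.1 : F) * (if δ = γ then 1 else 0) =
      (chi C c γ.1 : F) * (if δ = γ then 1 else 0)
    by_cases h : δ = γ
    · rw [h]
    · rw [if_neg h, mul_zero, mul_zero]
  · funext i
    show (0 : F) = (chi C c γ.1 : F) * 0
    rw [mul_zero]

theorem Dg_hb (c : Fin l → Fˣ) (h : Fin l → F) : Dg c (hb h : Sp C F) = hb h := by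
  refine Prod.ext ?_ rfl
  funext δ
  show (chi C c δ.1 : F) * 0 = 0
  rw [mul_zero]

theorem Dg_smul (c : Fin l → Fˣ) (a : F) (v : Sp C F) : Dg c (a • v) = a • Dg c v := by
  refine Prod.ext ?_ rfl
  funext δ
  show (chi C c δ.1 : F) * (a * v.1 δ) = a * ((chi C c δ.1 : F) * v.1 δ)
  ring

theorem Dg_sub (c : Fin l → Fˣ) (u v : Sp C F) : Dg c (u - v) = Dg c u - Dg c v := by
  rw [sub_eq_add_neg, Dg_add, ← neg_one_smul F v, Dg_smul, neg_one_smul, ← sub_eq_add_neg]

theorem D0 (hC : Cartan C) (i : Fin l) (c : Fˣ) (γ : Root C) (n : ℤ)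
    (h : ip C (sr hC i).1 γ.1 = n) :
    Dg (Pi.mulSingle i c) (eb F γ) = ((c ^ n : Fˣ) : F) • eb F γ := by
  rw [Dg_eb, chi_single, ip_comm hC, ← sr_val hC i, h]

set_option linter.unusedVariables false in
theorem pf_XSL (hXEB : T_XEB) (hSPB : T_SPB) : T_XSL := by
  intro l C hC F _ i s t c hc v
  have hc0 : (c : F) ≠ 0 := c.ne_zero
  refine hSPB hC (fun v => Xf (sr hC i) s (Xf (ng (sr hC i)) t v))
    (fun v => Xf (ng (sr hC i)) (t / c) (Dg (Pi.mulSingle i c) (Xf (sr hC i) (s / c) v)))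
    ?_ ?_ ?_ ?_ ?_ ?_ v
  · intro u v
    simp only [Xf_add]
  · intro a v
    simp only [Xf_smul]
  · intro u v
    simp only [Xf_add, Dg_add]
  · intro a v
    simp only [Xf_smul, Dg_smul]
  · intro γ
    show Xf (sr hC i) s (Xf (ng (sr hC i)) t (eb F γ)) =
      Xf (ng (sr hC i)) (t / c) (Dg (Pi.mulSingle i c) (Xf (sr hC i) (s / c) (eb F γ)))
    rcases root_cases hC (sr hC i) γ with h | ⟨δ, h⟩ | ⟨δ, h⟩ | h | h
    · rw [Y0 hC _ γ t h.le, X0 hC _ γ s h.ge, X0 hC _ γ _ h.ge, D0 hC i c γ 0 h, _root_.zpow_zero,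
        Units.val_one, one_smul, Y0 hC _ γ _ h.le]
    · have h1 := ip_of_sum hC _ γ δ h
      have h2 := ip_sum hC _ γ δ h
      rw [Y0 hC _ γ t (by omega), X1 hC _ γ δ s h, X1 hC _ γ δ _ h, Dg_add, Dg_smul,
        D0 hC i c γ (-1) h1, D0 hC i c δ 1 h2, Xf_add, Xf_smul, Xf_smul, Xf_smul,
        Y0 hC _ γ _ (by omega), Y1 hC _ δ γ _ h, _root_.zpow_neg_one, _root_.zpow_one, Units.val_inv_eq_inv_val]
      have he := eps_mul_self_F (F := F) (C := C) (sr hC i).1 γ.1
      set e := (eps C (sr hC i).1 γ.1 : F) with hedef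
      match_scalars
      · field_simp
        linear_combination hc + s * t * he
      · field_simp
    · have h2 := ip_sum hC _ δ γ h
      have h1 := ip_of_sum hC _ δ γ h
      rw [Y1 hC _ γ δ t h, Xf_sub, Xf_smul, X0 hC _ γ s (by omega), X1 hC _ δ γ s h,
        X0 hC _ γ _ (by omega), D0 hC i c γ 1 h2, _root_.zpow_one, Xf_smul, Y1 hC _ γ δ _ h]
      have he := eps_mul_self_F (F := F) (C := C) (sr hC i).1 δ.1
      set e := (eps C (sr hC i).1 δ.1 : F) with hedef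
      match_scalars
      · linear_combination -hc - s * t * he
      · field_simp
    · rw [h, Y2, Xf_add, Xf_add, Xf_smul, Xf_smul, X0 hC _ _ s (by rw [ip_self]; norm_num), X3, X2,
        X0 hC _ _ _ (by rw [ip_self]; norm_num), D0 hC i c _ 2 (ip_self _), Xf_smul, Y2, pr_hh,
        ip_self]
      have h3 : ((c ^ (2 : ℤ) : Fˣ) : F) = (c : F) ^ 2 := by norm_cast
      rw [h3]
      push_cast
      match_scalars
      · linear_combination (-(c : F) - 1 + s * t) * hc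
      · field_simp
        linear_combination (-t) * hc
      · field_simp
    · rw [h, Y0 hC _ _ t (by rw [ng_val, ip_neg_right, ip_self]; norm_num), X2, X2, Dg_add, Dg_sub,
        Dg_smul, Dg_smul, Dg_hb, D0 hC i c _ (-2) (by rw [ng_val, ip_neg_right, ip_self]),
        D0 hC i c _ 2 (ip_self _), Xf_add, Xf_sub, Xf_smul, Xf_smul, Xf_smul, Xf_smul, Y2, Y3,
        Y0 hC _ _ _ (by rw [ng_val, ip_neg_right, ip_self]; norm_num), pr_hh, ip_self]
      have h3 : ((c ^ (2 : ℤ) : Fˣ) : F) = (c : F) ^ 2 := by norm_cast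
      have h4 : ((c ^ (-2 : ℤ) : Fˣ) : F) = ((c : F) ^ 2)⁻¹ := by
        rw [_root_.zpow_neg, Units.val_inv_eq_inv_val, h3]
      rw [h3, h4]
      push_cast
      match_scalars
      · field_simp
        linear_combination ((c : F) + 1 - s * t) * hc
      · field_simp
        linear_combination (-s) * hc
      · field_simp
  · intro h
    show Xf (sr hC i) s (Xf (ng (sr hC i)) t (hb h)) =
      Xf (ng (sr hC i)) (t / c) (Dg (Pi.mulSingle i c) (Xf (sr hC i) (s / c) (hb h)))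
    rw [Y3, Xf_add, Xf_smul, X3, X2, X3, Dg_sub, Dg_smul, Dg_hb, D0 hC i c _ 2 (ip_self _), Xf_sub,
      Xf_smul, Xf_smul, Y3, Y2]
    have h3 : ((c ^ (2 : ℤ) : Fˣ) : F) = (c : F) ^ 2 := by norm_cast
    rw [h3]
    match_scalars
    · ring
    · field_simp
      linear_combination (s * pr (sr hC i).1 h) * hc
    · field_simp
      linear_combination (t * pr (sr hC i).1 h) * hc
    · field_simp

end Pool.Agent.H27.BCT
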